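import Pool.Agent.LCK.Stmts

set_option autoImplicit false

namespace Pool.Agent.LCK.H92

/-- reversal of the vertices -/
def R {n : ℕ} (v : Fin (n + 1) → E3) : Fin (n + 1) → E3 := fun k => v k.rev

theorem R_R {n : ℕ} (v : Fin (n + 1) → E3) : R (R v) = v := by
  funext k
  simp [R]

theorem R_cont {n : ℕ} : Continuous (R (n := n)) :=
  continuous_pi fun k => continuous_apply k.rev

theorem mem_rev {n : ℕ} (l : Fin n → ℝ) (v : Fin (n + 1) → E3) (hv : v ∈ Conf l) :
    R v ∈ Conf (fun k => l k.rev) := by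
  obtain ⟨h1, h2⟩ := hv
  refine ⟨fun k => ?_, fun i j hij => ?_⟩
  · simp only [R, Fin.rev_castSucc, Fin.rev_succ]
    rw [dist_comm]
    exact h1 k.rev
  · simp only [R, Fin.rev_castSucc, Fin.rev_succ]
    have h3 := h2 j.rev i.rev (Fin.rev_lt_rev.mpr hij)
    rw [segment_symm ℝ (v i.rev.succ), segment_symm ℝ (v j.rev.succ), Set.inter_comm, h3]
    have hi := i.2
    have hj := j.2
    have hlt : (i : ℕ) < j := hij
    by_cases hc : (j : ℕ) = (i : ℕ) + 1
    · rw [if_pos hc, if_pos (by rw [Fin.val_rev, Fin.val_rev]; omega)]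
      congr 2
      apply Fin.ext
      rw [Fin.val_succ, Fin.val_castSucc, Fin.val_rev, Fin.val_rev]
      omega
    · rw [if_neg hc, if_neg (by rw [Fin.val_rev, Fin.val_rev]; omega)]

theorem conf_rev {n : ℕ} (l : Fin n → ℝ) : Conf (fun k => l k.rev) = R '' Conf l := by
  ext v
  constructor
  · intro hv
    refine ⟨R v, ?_, R_R v⟩
    have := mem_rev _ v hv
    simpa using this
  · rintro ⟨w, hw, rfl⟩
    exact mem_rev l w hw

theorem conf_pre {n : ℕ} (l : Fin n → ℝ) :
    IsPreconnected (Conf (fun k => l k.rev)) ↔ IsPreconnected (Conf l) := by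
  constructor
  · intro h
    have h1 := h.image R R_cont.continuousOn
    rw [← conf_rev (fun k => l k.rev)] at h1
    simpa using h1
  · intro h
    rw [conf_rev]
    exact h.image R R_cont.continuousOn

theorem rev : REVStmt := by
  intro n
  refine ⟨conf_pre, fun l e => ?_⟩
  rw [← conf_pre (ap (fun k => l k.rev) e)]
  have : pr e l = fun k => ap (fun k => l k.rev) e k.rev := by
    funext k
    refine Fin.cases ?_ (fun j => ?_) k
    · simp [pr, ap, Fin.rev_zero]
    · rw [Fin.rev_succ]
      simp [pr, ap]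
  rw [this]

end Pool.Agent.LCK.H92
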